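import Mathlib

/-!
# Combinatorial Banach spaces
-/

set_option autoImplicit false

open Filter Topology
open scoped ENNReal

namespace Q170.CB

/-- `‖x‖_F`: the supremum of `∑_{k ∈ A} |x k|` over `A ∈ F`. -/
noncomputable def nrm (F : Set (Finset ℕ)) (x : ℕ → ℝ) : ℝ≥0∞ :=
  ⨆ A ∈ F, ENNReal.ofReal (∑ k ∈ A, |x k|)

/-- the coordinate projection of `x` onto `[n, ∞)` -/
def tail (n : ℕ) (x : ℕ → ℝ) : ℕ → ℝ := fun k => if n ≤ k then x k else 0

/-- the combinatorial space `X_F` of all `x` with `‖P_{[n,∞)} x‖_F → 0` -/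
def space (F : Set (Finset ℕ)) : Set (ℕ → ℝ) :=
  {x | Tendsto (fun n => nrm F (tail n x)) atTop (𝓝 0)}

/-- `f` is a bounded linear functional on `X_F` -/
structure IsFunctional (F : Set (Finset ℕ)) (f : (ℕ → ℝ) → ℝ) : Prop where
  add : ∀ x ∈ space F, ∀ y ∈ space F, f (x + y) = f x + f y
  smul : ∀ (a : ℝ), ∀ x ∈ space F, f (a • x) = a * f x
  bound : ∃ C : ℝ, ∀ x ∈ space F, ENNReal.ofReal |f x| ≤ ENNReal.ofReal C * nrm F x

/-- `X_F` has the Schur property: weakly convergent sequences converge in norm. -/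
def HasSchur (F : Set (Finset ℕ)) : Prop :=
  ∀ (x : ℕ → ℕ → ℝ) (y : ℕ → ℝ), (∀ n, x n ∈ space F) → y ∈ space F →
    (∀ f, IsFunctional F f → Tendsto (fun n => f (x n)) atTop (𝓝 (f y))) →
    Tendsto (fun n => nrm F (x n - y)) atTop (𝓝 0)

/-- the closure of the hereditary family `F` in the power set of `ℕ` (with the product topology):
the sets all of whose finite subsets are in `F` -/
def clos (F : Set (Finset ℕ)) : Set (Set ℕ) := {A | ∀ B : Finset ℕ, (B : Set ℕ) ⊆ A → B ∈ F}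

/-- property `(S*)` -/
def PropS (F : Set (Finset ℕ)) : Prop :=
  ∀ E : ℕ → Finset ℕ, (∀ n, E n ∈ F) → Pairwise (fun m n => Disjoint (E m) (E n)) →
    ∃ 𝒜 : Set (Set ℕ), 𝒜.Finite ∧ 𝒜 ⊆ clos F ∧ {n | (E n : Set ℕ) ⊆ ⋃₀ 𝒜}.Infinite

end Q170.CB
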