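import Pool.Agent.Q170.CB.Schur

/-!
# A combinatorial space isomorphic to `ℓ¹` without property `(S*)`
-/

set_option autoImplicit false

open Filter Topology Set
open scoped ENNReal

namespace Q170.CB

/-- pairs of a block number `n` and an `(n + 1)`-element subset of a set with `2 (n + 1)`
elements -/
abbrev T : Type := Σ n : ℕ, {S : Finset (Fin (2 * (n + 1))) // S.card = n + 1}

/-- all members of `A` in one block, or in every block all members of `A` contain the
chosen point -/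
def fam (e : ℕ ≃ T) : Set (Finset ℕ) :=
  {A | (∃ n, ∀ k ∈ A, (e k).1 = n) ∨
    ∃ i : ∀ n : ℕ, Fin (2 * (n + 1)), ∀ k ∈ A, i (e k).1 ∈ (e k).2.1}

theorem block_nonempty (n : ℕ) : Nonempty {S : Finset (Fin (2 * (n + 1))) // S.card = n + 1} := by
  obtain ⟨S, -, hS⟩ := Finset.exists_subset_card_eq
    (s := (Finset.univ : Finset (Fin (2 * (n + 1))))) (n := n + 1) (by
      rw [Finset.card_univ, Fintype.card_fin]; omega)
  exact ⟨⟨S, hS⟩⟩

instance : Infinite T := by
  have h : ∀ n : ℕ, Nonempty {S : Finset (Fin (2 * (n + 1))) // S.card = n + 1} := block_nonempty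
  refine Infinite.of_injective (fun n : ℕ => (⟨n, (h n).some⟩ : T)) ?_
  intro m n hmn
  exact congrArg Sigma.fst hmn

theorem fam_hered (e : ℕ ≃ T) : ∀ A ∈ fam e, ∀ B ⊆ A, B ∈ fam e := by
  rintro A (⟨n, h⟩ | ⟨i, h⟩) B hB
  · exact Or.inl ⟨n, fun k hk => h k (hB hk)⟩
  · exact Or.inr ⟨i, fun k hk => h k (hB hk)⟩

theorem fam_cover (e : ℕ ≃ T) (k : ℕ) : ∃ A ∈ fam e, k ∈ A :=
  ⟨{k}, Or.inl ⟨(e k).1, fun j hj => by rw [Finset.mem_singleton.1 hj]⟩,
    Finset.mem_singleton_self k⟩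

/-- averaging inside one block -/
theorem avg (n : ℕ) (B : Finset {S : Finset (Fin (2 * (n + 1))) // S.card = n + 1})
    (w : {S : Finset (Fin (2 * (n + 1))) // S.card = n + 1} → ℝ) :
    ∃ i : Fin (2 * (n + 1)), ∑ S ∈ B, w S ≤ 2 * ∑ S ∈ B.filter (fun S => i ∈ S.1), w S := by
  by_contra hcon
  push Not at hcon
  have h1 : ∑ i : Fin (2 * (n + 1)), 2 * ∑ S ∈ B.filter (fun S => i ∈ S.1), w S
      < ∑ i : Fin (2 * (n + 1)), ∑ S ∈ B, w S := by
    refine Finset.sum_lt_sum_of_nonempty ?_ fun i _ => hcon i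
    exact ⟨⟨0, by omega⟩, Finset.mem_univ _⟩
  have h2 : ∑ i : Fin (2 * (n + 1)), ∑ S ∈ B.filter (fun S => i ∈ S.1), w S
      = ((n : ℝ) + 1) * ∑ S ∈ B, w S := by
    simp_rw [Finset.sum_filter]
    rw [Finset.sum_comm, Finset.mul_sum]
    refine Finset.sum_congr rfl fun S _ => ?_
    rw [← Finset.sum_filter, Finset.sum_const]
    have : (Finset.univ.filter fun i => i ∈ S.1) = S.1 := by
      ext i; simp
    rw [this, S.2, nsmul_eq_mul]
    push_cast
    ring
  rw [← Finset.mul_sum, h2, Finset.sum_const, Finset.card_univ, Fintype.card_fin,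
    nsmul_eq_mul] at h1
  push_cast at h1
  linarith

theorem key (e : ℕ ≃ T) (x : ℕ → ℝ) (B : Finset ℕ) :
    ∃ A ∈ fam e, A ⊆ B ∧ ∑ k ∈ B, |x k| ≤ 2 * ∑ k ∈ A, |x k| := by
  classical
  have h1 : ∀ n : ℕ, ∃ i : Fin (2 * (n + 1)),
      ∑ k ∈ B.filter (fun k => (e k).1 = n), |x k| ≤
        2 * ∑ k ∈ B.filter (fun k => (e k).1 = n ∧
          ∃ S : {S : Finset (Fin (2 * (n + 1))) // S.card = n + 1}, e k = ⟨n, S⟩ ∧ i ∈ S.1),
            |x k| := by
    intro n
    obtain ⟨i, hi⟩ := avg n (Finset.univ.filter fun S => e.symm ⟨n, S⟩ ∈ B)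
      (fun S => |x (e.symm ⟨n, S⟩)|)
    refine ⟨i, ?_⟩
    have hinj : ∀ S S' : {S : Finset (Fin (2 * (n + 1))) // S.card = n + 1},
        e.symm ⟨n, S⟩ = e.symm ⟨n, S'⟩ → S = S' := by
      intro S S' h
      have := e.symm.injective h
      simpa using this
    have h2 : ∑ k ∈ B.filter (fun k => (e k).1 = n), |x k| =
        ∑ S ∈ Finset.univ.filter (fun S => e.symm (⟨n, S⟩ : T) ∈ B),
          |x (e.symm ⟨n, S⟩)| := by
      symm
      refine Finset.sum_bij (fun S _ => e.symm ⟨n, S⟩) ?_ ?_ ?_ ?_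
      · intro S hS
        simp only [Finset.mem_filter, Finset.mem_univ, true_and] at hS
        simp [hS]
      · intro S _ S' _ h
        exact hinj S S' h
      · intro k hk
        rw [Finset.mem_filter] at hk
        obtain ⟨hk, rfl⟩ := hk
        refine ⟨(e k).2, ?_, ?_⟩
        · simp [hk]
        · simp
      · intro S _
        rfl
    have h3 : ∑ k ∈ B.filter (fun k => (e k).1 = n ∧
          ∃ S : {S : Finset (Fin (2 * (n + 1))) // S.card = n + 1}, e k = ⟨n, S⟩ ∧ i ∈ S.1),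
            |x k| =
        ∑ S ∈ (Finset.univ.filter (fun S => e.symm (⟨n, S⟩ : T) ∈ B)).filter
          (fun S => i ∈ S.1), |x (e.symm ⟨n, S⟩)| := by
      symm
      refine Finset.sum_bij (fun S _ => e.symm ⟨n, S⟩) ?_ ?_ ?_ ?_
      · intro S hS
        simp only [Finset.mem_filter, Finset.mem_univ, true_and] at hS
        rw [Finset.mem_filter]
        refine ⟨hS.1, by simp, S, by simp, hS.2⟩
      · intro S _ S' _ h
        exact hinj S S' h
      · intro k hk
        rw [Finset.mem_filter] at hk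
        obtain ⟨hk, -, S, hS, hiS⟩ := hk
        refine ⟨S, ?_, ?_⟩
        · simp only [Finset.mem_filter, Finset.mem_univ, true_and]
          rw [← hS, Equiv.symm_apply_apply]
          exact ⟨hk, hiS⟩
        · rw [← hS, Equiv.symm_apply_apply]
      · intro S _
        rfl
    rw [h2, h3]
    exact hi
  choose i hi using h1
  refine ⟨B.filter (fun k => i (e k).1 ∈ (e k).2.1), Or.inr ⟨i, fun k hk =>
    (Finset.mem_filter.1 hk).2⟩, Finset.filter_subset _ _, ?_⟩
  have h4 : ∀ k, k ∈ B → (e k).1 ∈ B.image fun k => (e k).1 := fun k hk =>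
    Finset.mem_image_of_mem _ hk
  rw [← Finset.sum_fiberwise_of_maps_to h4 fun k => |x k|,
    ← Finset.sum_fiberwise_of_maps_to (s := B.filter (fun k => i (e k).1 ∈ (e k).2.1))
      (t := B.image fun k => (e k).1) (g := fun k => (e k).1)
      (fun k hk => h4 k (Finset.mem_filter.1 hk).1) fun k => |x k|, Finset.mul_sum]
  refine Finset.sum_le_sum fun n _ => ?_
  refine (hi n).trans (le_of_eq ?_)
  congr 1
  refine Finset.sum_congr ?_ fun _ _ => rfl
  ext k
  simp only [Finset.mem_filter]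
  constructor
  · rintro ⟨hk, rfl, S, hS, hiS⟩
    refine ⟨⟨hk, ?_⟩, rfl⟩
    have : (e k).2 = S := by
      have h5 : (⟨(e k).1, (e k).2⟩ : T) = ⟨(e k).1, S⟩ := hS
      exact eq_of_heq (Sigma.mk.inj h5).2
    rw [this]
    exact hiS
  · rintro ⟨⟨hk, h5⟩, rfl⟩
    exact ⟨hk, rfl, (e k).2, rfl, h5⟩

theorem le_nrm {F : Set (Finset ℕ)} {A : Finset ℕ} (hA : A ∈ F) (x : ℕ → ℝ) :
    ENNReal.ofReal (∑ k ∈ A, |x k|) ≤ nrm F x :=
  le_iSup₂ (f := fun (A : Finset ℕ) (_ : A ∈ F) => ENNReal.ofReal (∑ k ∈ A, |x k|)) A hA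

theorem sum_le (e : ℕ ≃ T) (x : ℕ → ℝ) (B : Finset ℕ) :
    ENNReal.ofReal (∑ k ∈ B, |x k|) ≤ 2 * nrm (fam e) x := by
  obtain ⟨A, hA, -, h⟩ := key e x B
  calc ENNReal.ofReal (∑ k ∈ B, |x k|) ≤ ENNReal.ofReal (2 * ∑ k ∈ A, |x k|) :=
        ENNReal.ofReal_le_ofReal h
    _ = 2 * ENNReal.ofReal (∑ k ∈ A, |x k|) := by
        rw [ENNReal.ofReal_mul (by norm_num)]
        simp
    _ ≤ 2 * nrm (fam e) x := by gcongr; exact le_nrm hA x

theorem nrm_le (F : Set (Finset ℕ)) (x : ℕ → ℝ) (hx : Summable fun k => |x k|) :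
    nrm F x ≤ ENNReal.ofReal (∑' k, |x k|) :=
  iSup₂_le fun A _ => ENNReal.ofReal_le_ofReal (hx.sum_le_tsum A fun _ _ => abs_nonneg _)

theorem summable_of_nrm (e : ℕ ≃ T) (x : ℕ → ℝ) (hx : nrm (fam e) x ≠ ∞) :
    Summable fun k => |x k| := by
  refine summable_of_sum_le (c := (2 * nrm (fam e) x).toReal) (fun k => abs_nonneg _) fun B => ?_
  have h1 := sum_le e x B
  have h2 : 2 * nrm (fam e) x ≠ ∞ := ENNReal.mul_ne_top (by simp) hx
  exact (ENNReal.ofReal_le_iff_le_toReal h2).1 h1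

theorem tsum_le (e : ℕ ≃ T) (x : ℕ → ℝ) (hx : Summable fun k => |x k|) :
    ENNReal.ofReal (∑' k, |x k|) ≤ 2 * nrm (fam e) x := by
  by_cases htop : nrm (fam e) x = ∞
  · rw [htop, ENNReal.mul_top (by simp)]
    exact le_top
  have h2 : 2 * nrm (fam e) x ≠ ∞ := ENNReal.mul_ne_top (by simp) htop
  rw [ENNReal.ofReal_le_iff_le_toReal h2]
  refine hx.tsum_le_of_sum_le fun B => ?_
  exact (ENNReal.ofReal_le_iff_le_toReal h2).1 (sum_le e x B)

theorem summable_of_mem (e : ℕ ≃ T) {x : ℕ → ℝ} (hx : x ∈ space (fam e)) :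
    Summable fun k => |x k| := by
  have h1 : ∀ᶠ n in atTop, nrm (fam e) (tail n x) < 1 :=
    (tendsto_order.1 hx).2 1 (by simp)
  obtain ⟨n, hn⟩ := h1.exists
  have h2 := summable_of_nrm e (tail n x) (hn.trans (by simp)).ne
  refine h2.congr_atTop ?_
  filter_upwards [eventually_ge_atTop n] with k hk
  simp [tail, hk]

theorem hasSchur (e : ℕ ≃ T) : HasSchur (fam e) := by
  intro x y hx hy h
  have hsx := fun n => summable_of_mem e (hx n)
  have hsy := summable_of_mem e hy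
  have hmul : ∀ z : ℕ → ℝ, (Summable fun k => |z k|) → ∀ b : ℕ → ℝ, (∀ j, |b j| ≤ 1) →
      Summable fun j => z j * b j := by
    intro z hz b hb
    refine Summable.of_norm_bounded hz fun j => ?_
    rw [Real.norm_eq_abs, abs_mul]
    exact mul_le_of_le_one_right (abs_nonneg _) (hb j)
  have hsub : ∀ n, Summable fun k => |(x n - y) k| := by
    intro n
    refine Summable.of_nonneg_of_le (fun k => abs_nonneg _) (fun k => ?_) ((hsx n).add hsy)
    exact abs_sub (x n k) (y k)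
  have hfun : ∀ b : ℕ → ℝ, (∀ j, |b j| ≤ 1) →
      IsFunctional (fam e) fun z => ∑' j, z j * b j := by
    intro b hb
    refine ⟨?_, ?_, 2, ?_⟩
    · intro z hz w hw
      have h1 := hmul z (summable_of_mem e hz) b hb
      have h2 := hmul w (summable_of_mem e hw) b hb
      rw [← h1.tsum_add h2]
      exact tsum_congr fun j => by simp [add_mul]
    · intro a z hz
      rw [← tsum_mul_left]
      exact tsum_congr fun j => by simp [mul_assoc]
    · intro z hz
      have h1 := summable_of_mem e hz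
      have h2 := hmul z h1 b hb
      refine le_trans ?_ ((tsum_le e z h1).trans (le_of_eq (by simp)))
      refine ENNReal.ofReal_le_ofReal ?_
      have h3 : ‖∑' j, z j * b j‖ ≤ ∑' j, ‖z j * b j‖ := norm_tsum_le_tsum_norm h2.norm
      refine h3.trans (h2.norm.tsum_le_tsum (fun j => ?_) h1)
      rw [Real.norm_eq_abs, abs_mul]
      exact mul_le_of_le_one_right (abs_nonneg _) (hb j)
  have hmain := schur (fun n => x n - y) hsub fun b hb => by
    have h1 := h _ (hfun b hb)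
    have h2 := h1.sub_const (∑' j, y j * b j)
    rw [sub_self] at h2
    refine h2.congr fun n => ?_
    rw [← (hmul _ (hsx n) b hb).tsum_sub (hmul _ hsy b hb)]
    exact tsum_congr fun j => by simp [sub_mul]
  have h1 : Tendsto (fun n => ENNReal.ofReal (∑' j, |(x n - y) j|)) atTop (𝓝 0) := by
    have h2 := (ENNReal.continuous_ofReal.tendsto 0).comp hmain
    rw [ENNReal.ofReal_zero] at h2
    exact h2
  exact tendsto_of_tendsto_of_tendsto_of_le_of_le tendsto_const_nhds h1 (fun _ => bot_le)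
    fun n => nrm_le _ _ (hsub n)

/-- the `n`-th block -/
noncomputable def blk (e : ℕ ≃ T) (n : ℕ) : Finset ℕ :=
  Finset.univ.image fun S : {S : Finset (Fin (2 * (n + 1))) // S.card = n + 1} => e.symm ⟨n, S⟩

theorem mem_blk {e : ℕ ≃ T} {n k : ℕ} : k ∈ blk e n ↔ (e k).1 = n := by
  rw [blk, Finset.mem_image]
  constructor
  · rintro ⟨S, -, rfl⟩
    simp
  · rintro rfl
    exact ⟨(e k).2, Finset.mem_univ _, by simp⟩

theorem clos_type (e : ℕ ≃ T) {A : Set ℕ} (hA : A ∈ clos (fam e)) :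
    (∃ m, ∀ k ∈ A, (e k).1 = m) ∨
      ∀ n, ∃ i : Fin (2 * (n + 1)), ∀ S, e.symm ⟨n, S⟩ ∈ A → i ∈ S.1 := by
  classical
  by_cases h : ∃ k₁ ∈ A, ∃ k₂ ∈ A, (e k₁).1 ≠ (e k₂).1
  · right
    obtain ⟨k₁, h₁, k₂, h₂, hne⟩ := h
    intro n
    have hB : ((blk e n).filter (· ∈ A) ∪ {k₁, k₂} : Finset ℕ) ∈ fam e := by
      apply hA
      intro k hk
      simp only [Finset.coe_union, Finset.coe_filter, Finset.coe_insert,
        Finset.coe_singleton, mem_union, mem_ofPred_eq, mem_insert_iff,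
        mem_singleton_iff] at hk
      rcases hk with hk | rfl | rfl
      · exact hk.2
      · exact h₁
      · exact h₂
    rcases hB with ⟨m, hm⟩ | ⟨i, hi⟩
    · exact absurd ((hm k₁ (by simp)).trans (hm k₂ (by simp)).symm) hne
    · refine ⟨i n, fun S hS => ?_⟩
      have h3 := hi (e.symm ⟨n, S⟩) (by
        rw [Finset.mem_union, Finset.mem_filter]
        exact Or.inl ⟨mem_blk.2 (by simp), hS⟩)
      rw [Equiv.apply_symm_apply] at h3
      exact h3
  · left
    push Not at h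
    by_cases hne : A.Nonempty
    · obtain ⟨k, hk⟩ := hne
      exact ⟨(e k).1, fun j hj => h j hj k hk⟩
    · exact ⟨0, fun k hk => absurd ⟨k, hk⟩ hne⟩

theorem not_propS (e : ℕ ≃ T) : ¬ PropS (fam e) := by
  classical
  intro h
  obtain ⟨𝒜, hfin, hsub, hinf⟩ := h (blk e) (fun n => Or.inl ⟨n, fun k hk => mem_blk.1 hk⟩)
    (fun m n hmn => Finset.disjoint_left.2 fun k hk hk' =>
      hmn ((mem_blk.1 hk).symm.trans (mem_blk.1 hk')))
  -- the numbers of the blocks containing a member of `𝒜`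
  let bad : Set ℕ := {m | ∃ A ∈ 𝒜, A.Nonempty ∧ ∀ k ∈ A, (e k).1 = m}
  have hbad : bad.Finite := by
    have h1 : bad ⊆ (fun A : Set ℕ => if hA : A.Nonempty then (e hA.some).1 else 0) '' 𝒜 := by
      rintro m ⟨A, hA, hne, hm⟩
      refine ⟨A, hA, ?_⟩
      simp only [dif_pos hne]
      exact hm _ hne.some_mem
    exact (hfin.image _).subset h1
  obtain ⟨n, hn, hn2⟩ := (hinf.sdiff (hbad.union (finite_le_nat hfin.toFinset.card))).nonempty
  have hn3 : n ∉ bad := fun h => hn2 (Or.inl h)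
  have hn4 : hfin.toFinset.card < n := not_le.1 fun h => hn2 (Or.inr h)
  have hc : ∀ A ∈ 𝒜, ∃ i : Fin (2 * (n + 1)), ∀ S, e.symm ⟨n, S⟩ ∈ A → i ∈ S.1 := by
    intro A hA
    rcases clos_type e (hsub hA) with ⟨m, hm⟩ | h1
    · refine ⟨⟨0, by omega⟩, fun S hS => absurd ?_ hn3⟩
      have : m = n := by
        have := hm _ hS
        simpa using this.symm
      exact ⟨A, hA, ⟨_, hS⟩, fun k hk => (hm k hk).trans this⟩
    · exact h1 n
  choose! c hc using hc
  let I : Finset (Fin (2 * (n + 1))) := hfin.toFinset.image c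
  have hI : I.card ≤ n := Finset.card_image_le.trans hn4.le
  obtain ⟨S, hS, hScard⟩ := Finset.exists_subset_card_eq (s := Iᶜ) (n := n + 1) (by
    rw [Finset.card_compl, Fintype.card_fin]
    omega)
  have hk : e.symm ⟨n, ⟨S, hScard⟩⟩ ∈ ⋃₀ 𝒜 := hn (by
    rw [Finset.mem_coe, mem_blk]
    simp)
  obtain ⟨A, hA, hkA⟩ := hk
  have h1 := hc A hA _ hkA
  have h2 := Finset.mem_compl.1 (hS h1)
  exact h2 (Finset.mem_image_of_mem _ (hfin.mem_toFinset.2 hA))

theorem main : ∃ F : Set (Finset ℕ), (∀ A ∈ F, ∀ B ⊆ A, B ∈ F) ∧ (∀ k, ∃ A ∈ F, k ∈ A) ∧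
    (∀ (x : ℕ → ℝ) (B : Finset ℕ), ENNReal.ofReal (∑ k ∈ B, |x k|) ≤ 2 * nrm F x) ∧
    HasSchur F ∧ ¬ PropS F := by
  obtain ⟨e⟩ : Nonempty (ℕ ≃ T) := nonempty_equiv_of_countable
  exact ⟨fam e, fam_hered e, fam_cover e, sum_le e, hasSchur e, not_propS e⟩

end Q170.CB
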