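import Pool.Agent.Q170.CB.Defs

/-!
# Schur's theorem for `ℓ¹`
-/

set_option autoImplicit false

open Filter Topology Set
open scoped ENNReal

namespace Q170.CB

/-- Schur's theorem: if `∑ x_k(j) b_j → 0` for all `b` with `|b_j| ≤ 1` then `∑ |x_k(j)| → 0`. -/
theorem schur (x : ℕ → ℕ → ℝ) (hx : ∀ k, Summable fun j => |x k j|)
    (h : ∀ b : ℕ → ℝ, (∀ j, |b j| ≤ 1) → Tendsto (fun k => ∑' j, x k j * b j) atTop (𝓝 0)) :
    Tendsto (fun k => ∑' j, |x k j|) atTop (𝓝 0) := by
  have hcoord : ∀ j, Tendsto (fun k => x k j) atTop (𝓝 0) := by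
    intro j
    have h1 := h (fun i => if i = j then 1 else 0) (fun i => by split_ifs <;> simp)
    refine h1.congr fun k => ?_
    rw [tsum_eq_single j]
    · simp
    · intro i hi
      simp [hi]
  rw [Metric.tendsto_atTop]
  intro ε hε
  let B : Type := ℕ → Icc (-1 : ℝ) 1
  let φ : ℕ → B → ℝ := fun k b => ∑' j, x k j * (b j : ℝ)
  have hb : ∀ (b : B) (j : ℕ), |(b j : ℝ)| ≤ 1 := fun b j => abs_le.2 (b j).2
  have hφ : ∀ k, Continuous (φ k) := by
    intro k
    refine continuous_tsum (fun j => by fun_prop) (hx k) fun j b => ?_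
    rw [Real.norm_eq_abs, abs_mul]
    exact mul_le_of_le_one_right (abs_nonneg _) (hb b j)
  let C : ℕ → Set B := fun N => {b | ∀ k, N ≤ k → |φ k b| ≤ ε / 4}
  have hC : ∀ N, IsClosed (C N) := by
    intro N
    have : C N = ⋂ k, ⋂ _ : N ≤ k, {b | |φ k b| ≤ ε / 4} := by
      ext b
      simp [C]
    rw [this]
    exact isClosed_iInter fun k => isClosed_iInter fun _ =>
      isClosed_le ((hφ k).abs) continuous_const
  have hU : ⋃ N, C N = univ := by
    refine eq_univ_of_forall fun b => ?_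
    have h1 := h (fun j => (b j : ℝ)) (hb b)
    rw [Metric.tendsto_atTop] at h1
    obtain ⟨N, hN⟩ := h1 (ε / 4) (by linarith)
    refine mem_iUnion.2 ⟨N, fun k hk => ?_⟩
    have := hN k hk
    rw [Real.dist_0_eq_abs] at this
    exact this.le
  have hBne : Nonempty B := ⟨fun _ => ⟨0, by simp⟩⟩
  obtain ⟨N, c, hc⟩ := nonempty_interior_of_iUnion_of_closed hC hU
  obtain ⟨I, u, hu, hsub⟩ := isOpen_pi_iff.1 isOpen_interior c hc
  -- the finite part tends to zero
  have hfin : Tendsto (fun k => ∑ j ∈ I, |x k j|) atTop (𝓝 0) := by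
    have : Tendsto (fun k => ∑ j ∈ I, |x k j|) atTop (𝓝 (∑ j ∈ I, |(0 : ℝ)|)) :=
      tendsto_finset_sum _ fun j _ => (hcoord j).abs
    simpa using this
  rw [Metric.tendsto_atTop] at hfin
  obtain ⟨N', hN'⟩ := hfin (ε / 4) (by linarith)
  refine ⟨max N N', fun k hk => ?_⟩
  have hk1 : N ≤ k := (le_max_left _ _).trans hk
  have hk2 : N' ≤ k := (le_max_right _ _).trans hk
  have h2 := hN' k hk2
  rw [Real.dist_0_eq_abs, abs_of_nonneg (Finset.sum_nonneg fun j _ => abs_nonneg _)] at h2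
  rw [Real.dist_0_eq_abs, abs_of_nonneg (tsum_nonneg fun j => abs_nonneg _)]
  classical
  let sg : ℕ → ℝ := fun j => if 0 ≤ x k j then 1 else -1
  have hsg : ∀ j, sg j ∈ Icc (-1 : ℝ) 1 := fun j => by
    show (if 0 ≤ x k j then (1 : ℝ) else -1) ∈ _
    split_ifs <;> simp
  have hsg' : ∀ j, x k j * sg j = |x k j| := fun j => by
    show x k j * (if 0 ≤ x k j then (1 : ℝ) else -1) = _
    split_ifs with h3
    · rw [mul_one, abs_of_nonneg h3]
    · rw [abs_of_neg (not_le.1 h3)]
      ring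
  let b : B := fun j => if j ∈ I then c j else ⟨sg j, hsg j⟩
  have hbmem : b ∈ interior (C N) := by
    apply hsub
    intro j hj
    have : b j = c j := if_pos hj
    rw [this]
    exact (hu j hj).2
  have h3 := (interior_subset hbmem) k hk1
  have hs1 : Summable fun j => x k j * (b j : ℝ) := by
    refine Summable.of_norm_bounded (hx k) fun j => ?_
    rw [Real.norm_eq_abs, abs_mul]
    exact mul_le_of_le_one_right (abs_nonneg _) (hb b j)
  have h4 : ∑' j, |x k j| ≤ φ k b + 2 * ∑ j ∈ I, |x k j| := by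
    have h5 : ∑' j, |x k j| - φ k b = ∑' j, (|x k j| - x k j * (b j : ℝ)) :=
      ((hx k).tsum_sub hs1).symm
    have h6 : ∑' j, (|x k j| - x k j * (b j : ℝ)) = ∑ j ∈ I, (|x k j| - x k j * (b j : ℝ)) := by
      refine tsum_eq_sum fun j hj => ?_
      have : b j = ⟨sg j, hsg j⟩ := if_neg hj
      rw [this]
      show |x k j| - x k j * sg j = 0
      rw [hsg', sub_self]
    have h7 : ∑ j ∈ I, (|x k j| - x k j * (b j : ℝ)) ≤ ∑ j ∈ I, 2 * |x k j| := by
      refine Finset.sum_le_sum fun j _ => ?_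
      have h8 : |x k j * (b j : ℝ)| ≤ |x k j| := by
        rw [abs_mul]
        exact mul_le_of_le_one_right (abs_nonneg _) (hb b j)
      have h9 := neg_abs_le (x k j * (b j : ℝ))
      linarith
    rw [← Finset.mul_sum] at h7
    linarith
  have h5 := le_abs_self (φ k b)
  linarith

end Q170.CB
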